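import Pool.Agent.Helper49.HW.Defs

/-!
# Block PB of MP_074879_pr: heights of the first trees coded by a word

The two bounds are proved by induction on the length of the word, for a list `L` of height
bounds (one for each tree) instead of a constant bound.
-/

open Finset

namespace HW

namespace PB

theorem Pr_succ (p : ℕ → ℝ) (K N : ℕ) (A : List ℕ → Prop) :
    Pr p K (N + 1) A = ∑ a ∈ range K, p a * Pr p K N (fun l => A (a :: l)) := rfl

theorem Pr_mono (p : ℕ → ℝ) (K : ℕ) (hp : ∀ k, 0 ≤ p k) (N : ℕ) (A B : List ℕ → Prop)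
    (h : ∀ y, A y → B y) : Pr p K N A ≤ Pr p K N B := by
  induction N generalizing A B with
  | zero =>
    have hA := h []
    by_cases h1 : A []
    · simp [Pr, E, h1, hA h1]
    · by_cases h2 : B [] <;> simp [Pr, E, h1, h2]
  | succ N ih =>
    rw [Pr_succ, Pr_succ]
    exact Finset.sum_le_sum fun a _ =>
      mul_le_mul_of_nonneg_left (ih _ _ fun y hy => h _ hy) (hp a)

theorem Pr_le_one (p : ℕ → ℝ) (K : ℕ) (hp : ∀ k, 0 ≤ p k) (hp1 : ∑ k ∈ range K, p k = 1)
    (N : ℕ) (A : List ℕ → Prop) : Pr p K N A ≤ 1 := by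
  induction N generalizing A with
  | zero => by_cases h : A [] <;> simp [Pr, E, h]
  | succ N ih =>
    rw [Pr_succ]
    calc ∑ a ∈ range K, p a * Pr p K N (fun l => A (a :: l))
        ≤ ∑ a ∈ range K, p a * 1 :=
          Finset.sum_le_sum fun a _ => mul_le_mul_of_nonneg_left (ih _) (hp a)
      _ = 1 := by simpa using hp1

theorem Pr_false (p : ℕ → ℝ) (K : ℕ) (N : ℕ) (A : List ℕ → Prop) (h : ∀ y, ¬ A y) :
    Pr p K N A = 0 := by
  induction N generalizing A with
  | zero => simp [Pr, E, h []]
  | succ N ih =>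
    rw [Pr_succ]
    refine Finset.sum_eq_zero fun a _ => ?_
    rw [ih _ (fun y => h _), mul_zero]

theorem hq_nonneg (p : ℕ → ℝ) (K : ℕ) (hp : ∀ k, 0 ≤ p k) (h : ℕ) : 0 ≤ hq p K h := by
  induction h with
  | zero => simp [hq]
  | succ h ih =>
    rw [hq]
    exact Finset.sum_nonneg fun k _ => mul_nonneg (hp k) (pow_nonneg ih k)

theorem hq_le_one (p : ℕ → ℝ) (K : ℕ) (hp : ∀ k, 0 ≤ p k) (hp1 : ∑ k ∈ range K, p k = 1)
    (h : ℕ) : hq p K h ≤ 1 := by
  induction h with
  | zero => simp [hq]
  | succ h ih =>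
    rw [hq]
    calc ∑ k ∈ range K, p k * hq p K h ^ k
        ≤ ∑ k ∈ range K, p k * 1 :=
          Finset.sum_le_sum fun k _ =>
            mul_le_mul_of_nonneg_left (pow_le_one₀ (hq_nonneg p K hp h) ih) (hp k)
      _ = 1 := by simpa using hp1

/-- `Q L = ∏ hq (L_i)` -/
noncomputable def Q (p : ℕ → ℝ) (K : ℕ) (L : List ℕ) : ℝ := (L.map (hq p K)).prod

theorem Q_nonneg (p : ℕ → ℝ) (K : ℕ) (hp : ∀ k, 0 ≤ p k) (L : List ℕ) : 0 ≤ Q p K L := by
  refine List.prod_nonneg ?_
  intro a ha
  obtain ⟨h, -, rfl⟩ := List.mem_map.1 ha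
  exact hq_nonneg p K hp h

theorem Q_le_one (p : ℕ → ℝ) (K : ℕ) (hp : ∀ k, 0 ≤ p k) (hp1 : ∑ k ∈ range K, p k = 1)
    (L : List ℕ) : Q p K L ≤ 1 := by
  induction L with
  | nil => simp [Q]
  | cons h L ih =>
    have : Q p K (h :: L) = hq p K h * Q p K L := by simp [Q]
    rw [this]
    exact mul_le_one₀ (hq_le_one p K hp hp1 h) (Q_nonneg p K hp L) ih

theorem Q_cons (p : ℕ → ℝ) (K : ℕ) (h : ℕ) (L : List ℕ) :
    Q p K (h :: L) = hq p K h * Q p K L := by simp [Q]

theorem Q_replicate_append (p : ℕ → ℝ) (K : ℕ) (k h : ℕ) (L : List ℕ) :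
    Q p K (List.replicate k h ++ L) = hq p K h ^ k * Q p K L := by
  simp [Q]

/-! ### Trees below the bounds -/

/-- the trees of the forest satisfy `ht ≤` the corresponding entry of the list -/
def SL : Forest → List ℕ → Prop
  | .nil, [] => True
  | .nil, _ :: _ => False
  | .cons _ _, [] => False
  | .cons c s, h :: L => c.ht < h ∧ SL s L

theorem dfw_app (c s : Forest) : (c.app s).dfw = c.dfw ++ s.dfw := by
  induction c with
  | nil => simp [Forest.app, Forest.dfw]
  | cons c1 s1 _ ih => simp [Forest.app, Forest.dfw, ih]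

theorem SL_app (c s : Forest) (h : ℕ) (L : List ℕ) (hc : c.ht ≤ h) (hs : SL s L) :
    SL (c.app s) (List.replicate c.len h ++ L) := by
  induction c with
  | nil => simpa [Forest.app, Forest.len] using hs
  | cons c1 s1 _ ih =>
    simp only [Forest.ht, max_le_iff] at hc
    simp only [Forest.app, Forest.len, List.replicate_succ, List.cons_append, SL]
    exact ⟨by omega, ih hc.2⟩

theorem SL_replicate (F : Forest) (h : ℕ) (hF : F.ht ≤ h) : SL F (List.replicate F.len h) := by
  induction F with
  | nil => simp [SL, Forest.len]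
  | cons c s _ ih =>
    simp only [Forest.ht, max_le_iff] at hF
    simp only [Forest.len, List.replicate_succ, SL]
    exact ⟨by omega, ih hF.2⟩

theorem Pr_SL (p : ℕ → ℝ) (K : ℕ) (hp : ∀ k, 0 ≤ p k) (hp1 : ∑ k ∈ range K, p k = 1) (N : ℕ)
    (L : List ℕ) :
    Pr p K N (fun y => ∃ F : Forest, F.dfw <+: y ∧ SL F L) ≤ Q p K L := by
  induction N generalizing L with
  | zero =>
    cases L with
    | nil => simpa [Q] using Pr_le_one p K hp hp1 0 _
    | cons h L =>
      have : ¬ ∃ F : Forest, F.dfw <+: [] ∧ SL F (h :: L) := by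
        rintro ⟨F, hF, hS⟩
        cases F with
        | nil => exact hS
        | cons c s => simp [Forest.dfw] at hF
      rw [Pr, E, if_neg this]
      exact Q_nonneg p K hp _
  | succ N ih =>
    cases L with
    | nil => simpa [Q] using Pr_le_one p K hp hp1 (N + 1) _
    | cons h L =>
      cases h with
      | zero =>
        have : ∀ y : List ℕ, ¬ ∃ F : Forest, F.dfw <+: y ∧ SL F (0 :: L) := by
          rintro y ⟨F, hF, hS⟩
          cases F with
          | nil => exact hS
          | cons c s => exact absurd hS.1 (by omega)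
        rw [Pr_false p K (N + 1) _ this]
        exact Q_nonneg p K hp _
      | succ h =>
        rw [Pr_succ, Q_cons, hq, Finset.sum_mul]
        refine Finset.sum_le_sum fun k _ => ?_
        rw [mul_assoc]
        refine mul_le_mul_of_nonneg_left ?_ (hp k)
        rw [← Q_replicate_append]
        refine le_trans (Pr_mono p K hp N _ _ ?_) (ih (List.replicate k h ++ L))
        rintro y ⟨F, hF, hS⟩
        cases F with
        | nil => exact absurd hS (by simp [SL])
        | cons c s =>
          simp only [Forest.dfw] at hF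
          rw [List.cons_prefix_cons] at hF
          obtain ⟨hk, hF⟩ := hF
          refine ⟨c.app s, by rw [dfw_app]; exact hF, ?_⟩
          rw [← hk]
          exact SL_app c s h L (Nat.lt_succ_iff.1 hS.1) hS.2

/-! ### Trees above the bounds -/

/-- some tree of the forest satisfies `ht >` the corresponding entry of the list -/
def TL : Forest → List ℕ → Prop
  | .nil, _ => False
  | .cons _ _, [] => False
  | .cons c s, h :: L => h ≤ c.ht ∨ TL s L

theorem TL_app1 (c s : Forest) (h : ℕ) (L : List ℕ) (hc : h < c.ht) :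
    TL (c.app s) (List.replicate c.len h ++ L) := by
  induction c with
  | nil => simp [Forest.ht] at hc
  | cons c1 s1 _ ih =>
    simp only [Forest.ht, lt_max_iff] at hc
    simp only [Forest.app, Forest.len, List.replicate_succ, List.cons_append, TL]
    rcases hc with hc | hc
    · exact Or.inl (by omega)
    · exact Or.inr (ih hc)

theorem TL_app2 (c s : Forest) (h : ℕ) (L : List ℕ) (hs : TL s L) :
    TL (c.app s) (List.replicate c.len h ++ L) := by
  induction c with
  | nil => simpa [Forest.app, Forest.len] using hs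
  | cons c1 s1 _ ih =>
    simp only [Forest.app, Forest.len, List.replicate_succ, List.cons_append, TL]
    exact Or.inr ih

theorem TL_replicate (F : Forest) (r h : ℕ) (hr : F.len ≤ r) (hF : h < F.ht) :
    TL F (List.replicate r h) := by
  induction F generalizing r with
  | nil => simp [Forest.ht] at hF
  | cons c s _ ih =>
    simp only [Forest.len] at hr
    obtain ⟨r, rfl⟩ : ∃ r', r = r' + 1 := ⟨r - 1, by omega⟩
    simp only [Forest.ht, lt_max_iff] at hF
    simp only [List.replicate_succ, TL]
    rcases hF with hF | hF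
    · exact Or.inl (by omega)
    · exact Or.inr (ih r (by omega) hF)

theorem Pr_TL (p : ℕ → ℝ) (K : ℕ) (hp : ∀ k, 0 ≤ p k) (hp1 : ∑ k ∈ range K, p k = 1) (N : ℕ)
    (L : List ℕ) :
    Pr p K N (fun y => ∃ F : Forest, F.dfw <+: y ∧ TL F L) ≤ 1 - Q p K L := by
  have hnil : ∀ F : Forest, ¬ TL F [] := by
    intro F hF
    cases F with
    | nil => exact hF
    | cons c s => exact hF
  induction N generalizing L with
  | zero =>
    have : ¬ ∃ F : Forest, F.dfw <+: [] ∧ TL F L := by
      rintro ⟨F, hF, hS⟩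
      cases F with
      | nil => exact absurd hS (by simp [TL])
      | cons c s => simp [Forest.dfw] at hF
    rw [Pr, E, if_neg this]
    linarith [Q_le_one p K hp hp1 L]
  | succ N ih =>
    cases L with
    | nil =>
      rw [Pr_false p K (N + 1) _ (fun y ⟨F, _, hF⟩ => hnil F hF)]
      simp [Q]
    | cons h L =>
      cases h with
      | zero =>
        rw [Q_cons]
        simpa [hq] using Pr_le_one p K hp hp1 (N + 1) _
      | succ h =>
        have e : 1 - Q p K ((h + 1) :: L) =
            ∑ k ∈ range K, p k * (1 - Q p K (List.replicate k h ++ L)) := by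
          rw [Q_cons, hq, Finset.sum_mul]
          simp only [Q_replicate_append, mul_sub, mul_one, Finset.sum_sub_distrib, hp1]
          congr 1
          exact Finset.sum_congr rfl fun k _ => by ring
        rw [Pr_succ, e]
        refine Finset.sum_le_sum fun k _ => mul_le_mul_of_nonneg_left ?_ (hp k)
        refine le_trans (Pr_mono p K hp N _ _ ?_) (ih (List.replicate k h ++ L))
        rintro y ⟨F, hF, hS⟩
        cases F with
        | nil => exact absurd hS (by simp [TL])
        | cons c s =>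
          simp only [Forest.dfw] at hF
          rw [List.cons_prefix_cons] at hF
          obtain ⟨hk, hF⟩ := hF
          refine ⟨c.app s, by rw [dfw_app]; exact hF, ?_⟩
          rw [← hk]
          rcases hS with hS | hS
          · exact TL_app1 c s h L (by omega)
          · exact TL_app2 c s h L hS

end PB

/-- P3 -/
theorem Pr_tall (p : ℕ → ℝ) (K N : ℕ) (hp : ∀ k, 0 ≤ p k) (hp1 : ∑ k ∈ range K, p k = 1)
    (r h : ℕ) :
    Pr p K N (fun y => ∃ F : Forest, F.dfw <+: y ∧ F.len ≤ r ∧ h < F.ht) ≤
      r * (1 - hq p K h) := by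
  have h1 : Pr p K N (fun y => ∃ F : Forest, F.dfw <+: y ∧ F.len ≤ r ∧ h < F.ht) ≤
      1 - PB.Q p K (List.replicate r h) :=
    le_trans (PB.Pr_mono p K hp N _ _ fun y ⟨F, hF, hr, hh⟩ =>
      ⟨F, hF, PB.TL_replicate F r h hr hh⟩) (PB.Pr_TL p K hp hp1 N _)
  have h2 : PB.Q p K (List.replicate r h) = hq p K h ^ r := by simp [PB.Q]
  have h3 : 1 + (r : ℝ) * (hq p K h - 1) ≤ hq p K h ^ r := by
    have h4 := one_add_mul_le_pow (a := hq p K h - 1) (by linarith [PB.hq_nonneg p K hp h]) r
    simpa using h4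
  rw [h2] at h1
  linarith

/-- P4 -/
theorem Pr_short (p : ℕ → ℝ) (K N : ℕ) (hp : ∀ k, 0 ≤ p k) (hp1 : ∑ k ∈ range K, p k = 1)
    (r h : ℕ) :
    Pr p K N (fun y => ShortR y r h) ≤ (hq p K h) ^ r := by
  have h2 : PB.Q p K (List.replicate r h) = hq p K h ^ r := by simp [PB.Q]
  rw [← h2]
  refine le_trans (PB.Pr_mono p K hp N _ _ ?_) (PB.Pr_SL p K hp hp1 N (List.replicate r h))
  rintro y ⟨F, hF, hr, hh⟩
  refine ⟨F, hF, ?_⟩
  rw [← hr]
  exact PB.SL_replicate F h hh

end HW
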